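import Pool.Agent.Lib.MP_b5021c_nt.IfaceSF
import Pool.Agent.Lib.MP_b5021c_nt.B.H09.E2Tpm

/-!
# Board b5, stage 3, row SF_TPW: weighted masses of a terminal pair
-/

namespace Pool.Agent.B5.H45

open scoped LaurentPolynomial Topology
open Polynomial MeasureTheory Pool.Agent.B5 Pool.Agent.B5.H09

/-- A weight with non-negative real values is self-adjoint. -/
theorem tpw_rsh (er : EvRS) (zf : ZfinS) (W : RO ℤ) (hW : NnR W) : rsh W = W := by
  by_contra hne
  have h0 : rsh W - W ≠ 0 := sub_ne_zero.mpr hne
  have h1 := tpm_dense (O := ℤ) zf (rsh W - W) h0 (fun z => evR z (rsh W - W) = 0) ?_ ?_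
  · have h5 := zf ℤ (rsh W - W) h0
    have h6 : {z : Circle | evR z (rsh W - W) = 0} = Set.univ := Set.eq_univ_of_forall h1
    rw [h6] at h5
    exact (H49.dense_compl_finite _ h5).nonempty.elim fun x hx => hx (Set.mem_univ x)
  · exact isClosed_eq ((er ℤ).2.2.2 _) continuous_const
  · intro z _
    rw [map_sub, (er ℤ).2.2.1, sub_eq_zero]
    exact Complex.conj_eq_iff_im.mpr (hW z).1

/-- Row SF_TPW. -/
theorem sf_tpw (h1 : Tp1S) (h2 : Tp2S) (h3 : Tp3S) (hI : TpiS) (hR : TprS)
    (nn : NnwS) (er : EvRS) (zf : ZfinS) (hSh : SharpS) : TpwS := by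
  classical
  intro L _ _ _ r lam B c W n b f e hT hW0 hW hD hint
  obtain ⟨q, hq, hq0⟩ := h1 ℤ L r lam B c n b f e hT
  have hrec := h2 ℤ L r lam B c n b f e q hT hq
  have hpos := h3 ℤ L r lam B c n b f e q hT hq
  have hsum := hI ℤ L r lam B c n b f e q hT hq hrec
  have hrk := hR ℤ L r lam B c n b f e q hT hq hrec
  have hc0 := hT.c0
  have hWr : rsh W = W := tpw_rsh er zf W hW
  have hWim : ∀ z : Circle, evR z W = ((evR z W).re : ℂ) := fun z =>
    (Complex.ext rfl (by rw [Complex.ofReal_im]; exact (hW z).1))
  have hWmul : ∀ (z : Circle) (x : ℂ), (evR z W * x).re = (evR z W).re * x.re := by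
    intro z x
    rw [Complex.mul_re, (hW z).1]; ring
  have hrc0 : rsh c ≠ 0 := by
    intro h
    obtain ⟨z, hz⟩ : ∃ z : Circle, evR z c ≠ 0 := by
      by_contra hcon
      push Not at hcon
      have h5 := zf ℤ c hc0
      have h6 : {z : Circle | evR z c = 0} = Set.univ := Set.eq_univ_of_forall hcon
      rw [h6] at h5
      exact (H49.dense_compl_finite _ h5).nonempty.elim fun x hx => hx (Set.mem_univ x)
    have h7 := (er ℤ).2.2.1 z c
    rw [h, map_zero] at h7
    exact hz ((map_eq_zero _).mp h7.symm)
  -- reality of the values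
  have hreal : ∀ (i : Fin n) (z : Circle) (u : AddChar (Ker (f i)) Circle), evR z c ≠ 0 →
      (ev z u (q i) / evR z c).im = 0 := by
    intro i z u hz
    have h5 := congrArg (ev z u) (hrec i)
    rw [mul_comm, tpm_ev_cst_mul, (er ℤ).2.2.1, mul_comm (sharp (q i)), tpm_ev_cst_mul,
      (hSh ℤ _ (q i)).1] at h5
    rw [← Complex.conj_eq_iff_im, map_div₀]
    have hz' : (starRingEnd ℂ) (evR z c) ≠ 0 := by
      intro h; exact hz ((map_eq_zero _).mp h)
    rw [div_eq_div_iff hz' hz]
    rw [mul_comm, ← h5, mul_comm]
  -- the bound for the coefficients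
  have hbd : ∀ (i : Fin n) (z : Circle), evR z c ≠ 0 → ∀ a : Ker (f i),
      ‖evR z ((q i).coeff a) / evR z c‖ ≤ (evR z ((q i).coeff 0) / evR z c).re := by
    intro i z hz a
    have h5 := nn (Ker (f i)) (AddMonoidAlgebra.single 0 (evR z c)⁻¹ * spec z (q i)) ?_ a
    · have h6 : ∀ a : Ker (f i), (AddMonoidAlgebra.single 0 (evR z c)⁻¹ * spec z (q i)).coeff a =
          evR z ((q i).coeff a) / evR z c := by
        intro a
        rw [AddMonoidAlgebra.coeff_single_zero_mul, spec_coeff, div_eq_inv_mul]
      rwa [h6, h6] at h5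
    · intro u
      have h6 : evC u (AddMonoidAlgebra.single 0 (evR z c)⁻¹ * spec z (q i)) =
          ev z u (q i) / evR z c := by
        rw [map_mul]
        have h7 : evC u (AddMonoidAlgebra.single (0 : Ker (f i)) (evR z c)⁻¹) = (evR z c)⁻¹ := by
          rw [evC_apply, AddMonoidAlgebra.coeff_single, Finsupp.sum_single_index]
          · rw [AddChar.map_zero_eq_one]; simp
          · rw [zero_mul]
        rw [h7, div_eq_inv_mul]
        rfl
      rw [h6]
      exact ⟨hreal i z u hz, hpos i z u hz⟩
  -- divisibility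
  have hdvd : ∀ (i : Fin n) (a : Ker (f i)), c ∣ W * (q i).coeff a := by
    intro i a
    refine hD ((q i).coeff a) ((q i).coeff (-a)) ?_ ?_
    · have h5 := congrArg (fun G : AO ℤ (Ker (f i)) => G.coeff a) (hrec i)
      rw [mul_comm (q i), mul_comm (sharp (q i)), H14.coeff_cst_mul, H14.coeff_cst_mul,
        sharp_coeff'] at h5
      rw [mul_comm ((q i).coeff a), h5, mul_comm]
    have hg : IntervalIntegrable (fun t : ℝ =>
        2 * ‖(evL (circleMap 0 1 t) (W * B.coeff 0) / evL (circleMap 0 1 t) c).re‖ +
          r * ‖evL (circleMap 0 1 t) W‖) volume 0 (2 * Real.pi) := by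
      refine IntervalIntegrable.add (IntervalIntegrable.const_mul ?_ 2) ?_
      · exact hint.norm
      · exact (((tpm_cont_evL er W).norm).const_mul (r : ℝ)).intervalIntegrable _ _
    refine IntervalIntegrable.mono_fun hg ?_ ?_
    · exact ((tpm_cont_evL er (W * (q i).coeff a)).measurable.div
        (tpm_cont_evL er c).measurable).aestronglyMeasurable
    · refine Filter.Eventually.of_forall fun t => ?_
      have h5 : ∀ p : RO ℤ, evL (circleMap 0 1 t) p = evR (Circle.exp t) p := by
        intro p
        rw [← (er ℤ).1, Circle.coe_exp, circleMap_zero, Complex.ofReal_one, one_mul]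
      simp only [h5]
      have hnn : (0 : ℝ) ≤ 2 * ‖(evR (Circle.exp t) (W * B.coeff 0) /
          evR (Circle.exp t) c).re‖ + r * ‖evR (Circle.exp t) W‖ := by
        positivity
      rw [Real.norm_of_nonneg hnn]
      by_cases hz : evR (Circle.exp t) c = 0
      · rw [hz, div_zero, norm_zero]
        rw [hz] at hnn
        exact hnn
      · have h6 := hbd i (Circle.exp t) hz a
        have h7 := hsum (Circle.exp t) hz
        have h8 : (evR (Circle.exp t) ((q i).coeff 0) / evR (Circle.exp t) c).re ≤
            ∑ i, (evR (Circle.exp t) ((q i).coeff 0) / evR (Circle.exp t) c).re := by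
          refine Finset.single_le_sum
            (f := fun i => (evR (Circle.exp t) ((q i).coeff 0) / evR (Circle.exp t) c).re)
            (fun j _ => ?_) (Finset.mem_univ i)
          exact (norm_nonneg _).trans (hbd j (Circle.exp t) hz 0)
        have hWn : ‖evR (Circle.exp t) W‖ = (evR (Circle.exp t) W).re := by
          have h9 := congrArg norm (hWim (Circle.exp t))
          rw [h9, Complex.norm_real, Real.norm_of_nonneg (hW _).2]
        have hw := (hW (Circle.exp t)).2
        have h9 := Real.le_norm_self
          ((evR (Circle.exp t) (W * B.coeff 0) / evR (Circle.exp t) c).re)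
        have h9' : (evR (Circle.exp t) (W * B.coeff 0) / evR (Circle.exp t) c).re =
            (evR (Circle.exp t) W).re *
              (evR (Circle.exp t) (B.coeff 0) / evR (Circle.exp t) c).re := by
          rw [map_mul, mul_div_assoc, hWmul]
        have h10 : (0 : ℝ) ≤ r := Nat.cast_nonneg r
        have h11 : ‖evR (Circle.exp t) (W * (q i).coeff a) / evR (Circle.exp t) c‖ =
            (evR (Circle.exp t) W).re *
              ‖evR (Circle.exp t) ((q i).coeff a) / evR (Circle.exp t) c‖ := by
          rw [map_mul, mul_div_assoc, norm_mul, hWn]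
        rw [h11, hWn]
        have h12 : (evR (Circle.exp t) W).re *
              ‖evR (Circle.exp t) ((q i).coeff a) / evR (Circle.exp t) c‖ ≤
            (evR (Circle.exp t) W).re *
              (2 * (evR (Circle.exp t) (B.coeff 0) / evR (Circle.exp t) c).re) := by
          refine mul_le_mul_of_nonneg_left ?_ hw
          linarith
        have h13 := mul_nonneg h10 hw
        linarith
  have hdv2 : ∀ i, ∃ T : AO ℤ (Ker (f i)), cst W * q i = cst c * T := fun i =>
    (H14.cst_dvd_iff c (cst W * q i)).mpr (fun a => by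
      rw [H14.coeff_cst_mul]; exact hdvd i a)
  choose T hTq using hdv2
  have hcoef : ∀ (i : Fin n) (a : Ker (f i)), W * (q i).coeff a = c * (T i).coeff a := by
    intro i a
    have := congrArg (fun G : AO ℤ (Ker (f i)) => G.coeff a) (hTq i)
    rwa [H14.coeff_cst_mul, H14.coeff_cst_mul] at this
  have hcst : ∀ (i : Fin n) (d : RO ℤ), d ≠ 0 → (cst d : AO ℤ (Ker (f i))) ≠ 0 := by
    intro i d hd h
    have := congrArg (fun G : AO ℤ (Ker (f i)) => G.coeff 0) h
    simp only [cst, AddMonoidAlgebra.coeff_single, Finsupp.single_eq_same,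
      AddMonoidAlgebra.coeff_zero, Finsupp.coe_zero, Pi.zero_apply] at this
    exact hd this
  have hshc : ∀ (i : Fin n) (d : RO ℤ), sharp (cst d : AO ℤ (Ker (f i))) = cst (rsh d) := by
    intro i d
    ext1
    refine Finsupp.ext fun a => ?_
    rw [sharp_coeff', cst, cst, AddMonoidAlgebra.coeff_single, AddMonoidAlgebra.coeff_single,
      Finsupp.single_apply, Finsupp.single_apply]
    by_cases ha : a = 0
    · simp [ha]
    · rw [if_neg (by simpa [eq_comm] using ha), if_neg (fun h => ha h.symm), map_zero]
  have hevT : ∀ (i : Fin n) (z : Circle) (u : AddChar (Ker (f i)) Circle), evR z c ≠ 0 →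
      ev z u (T i) = evR z W * (ev z u (q i) / evR z c) := by
    intro i z u hz
    have h5 := congrArg (ev z u) (hTq i)
    rw [tpm_ev_cst_mul, tpm_ev_cst_mul] at h5
    rw [← mul_div_assoc, eq_div_iff hz, h5, mul_comm]
  refine ⟨T, ?_, ?_, ?_, ?_⟩
  · intro i h
    have h5 := hTq i
    rw [h, mul_zero] at h5
    rcases mul_eq_zero.mp h5 with h6 | h6
    · exact hcst i W hW0 h6
    · exact hq0 i h6
  · intro i
    constructor
    · have h5 := hrec i
      have h6 : sharp (cst W * q i) * cst c = cst W * q i * cst (rsh c) := by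
        rw [map_mul, hshc, hWr]
        calc cst W * sharp (q i) * cst c = cst W * (sharp (q i) * cst c) := by ring
          _ = cst W * (q i * cst (rsh c)) := by rw [h5]
          _ = _ := by ring
      rw [hTq i, map_mul, hshc] at h6
      have h7 : (cst c * cst (rsh c)) * sharp (T i) = (cst c * cst (rsh c)) * T i := by
        calc (cst c * cst (rsh c)) * sharp (T i) = cst (rsh c) * sharp (T i) * cst c := by ring
          _ = cst c * T i * cst (rsh c) := h6
          _ = _ := by ring
      exact mul_left_cancel₀ (mul_ne_zero (hcst i c hc0) (hcst i _ hrc0)) h7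
    · intro z u
      refine tpm_dense zf c hc0 (fun z => 0 ≤ (ev z u (T i)).re) ?_ ?_ z
      · exact isClosed_le continuous_const (Complex.continuous_re.comp (tpm_cont_ev er u (T i)))
      · intro z hz
        rw [hevT i z u hz, hWmul]
        exact mul_nonneg (hW z).2 (hpos i z u hz)
  · intro z hz
    have h5 := hsum z hz
    have h6 : (evR z (W * B.coeff 0) / evR z c).re =
        (evR z W).re * (evR z (B.coeff 0) / evR z c).re := by
      rw [map_mul, mul_div_assoc, hWmul]
    have h7 : (evR z (∑ i, (T i).coeff 0)).re =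
        (evR z W).re * ∑ i, (evR z ((q i).coeff 0) / evR z c).re := by
      rw [map_sum, Complex.re_sum, Finset.mul_sum]
      refine Finset.sum_congr rfl fun i _ => ?_
      rw [← hWmul, ← mul_div_assoc, ← map_mul, hcoef i 0, map_mul, mul_div_cancel_left₀ _ hz]
    rw [h6, h7]
    calc (evR z W).re * ∑ i, (evR z ((q i).coeff 0) / evR z c).re + r * (evR z W).re =
        (evR z W).re * (∑ i, (evR z ((q i).coeff 0) / evR z c).re + r) := by ring
      _ = (evR z W).re * (2 * (evR z (B.coeff 0) / evR z c).re) := by rw [h5]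
      _ = _ := by ring
  · refine hrk.trans (le_of_eq ?_)
    refine Finset.sum_congr rfl fun i _ => ?_
    have h5 : supp (q i) = supp (T i) := by
      ext a
      change (q i).coeff a ≠ 0 ↔ (T i).coeff a ≠ 0
      constructor
      · intro h h'
        have h6 := hcoef i a
        rw [h', mul_zero] at h6
        rcases mul_eq_zero.mp h6 with h7 | h7
        · exact hW0 h7
        · exact h h7
      · intro h h'
        have h6 := hcoef i a
        rw [h', mul_zero] at h6
        rcases mul_eq_zero.mp h6.symm with h7 | h7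
        · exact hc0 h7
        · exact h h7
    rw [h5]

end Pool.Agent.B5.H45
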